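import Pool.Agent.Q65.Horse28d764

/-!
# MP_f96ee4_an: limits of bounded solutions of a third-order rational recurrence

There are positive parameters and a bounded positive solution which converges to no periodic
sequence.
-/

set_option autoImplicit false

namespace Pool.Agent.Results.MP_f96ee4_an.Chaotic

open Filter Topology

/-- `x` is a solution of `x_{n+1} = (α + x_n + δ x_{n-2}) / (x_n + C x_{n-1})` with positive initial
values; the index is shifted by two, so `x 0, x 1, x 2` stand for `x_{-2}, x_{-1}, x_0` -/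
def IsSolution (α δ C : ℝ) (x : ℕ → ℝ) : Prop :=
  0 < x 0 ∧ 0 < x 1 ∧ 0 < x 2 ∧
    ∀ n, x (n + 3) = (α + x (n + 2) + δ * x n) / (x (n + 2) + C * x (n + 1))

/-- the positive equilibrium -/
noncomputable def xbar (α δ C : ℝ) : ℝ :=
  (1 + δ + √((δ + 1) ^ 2 + 4 * α * (1 + C))) / (2 * (1 + C))

/-- **There are `α, δ, C > 0` and a bounded positive solution which does not converge to the
equilibrium and whose distance to every periodic sequence does not tend to zero.** -/
theorem result : ∃ α δ C : ℝ, 0 < α ∧ 0 < δ ∧ 0 < C ∧ ∃ x : ℕ → ℝ, IsSolution α δ C x ∧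
    BddAbove (Set.range x) ∧ ¬ Tendsto x atTop (𝓝 (xbar α δ C)) ∧
    ∀ (p : ℕ → ℝ) (k : ℕ), 0 < k → (∀ n, p (n + k) = p n) →
      ¬ Tendsto (fun n => x n - p n) atTop (𝓝 0) := by
  obtain ⟨x, hpos, hx, ⟨R, hR⟩, hper⟩ := Q65.Horse28d764.exists_sol' (γ := 0) (D := 0) le_rfl
    (Real.exp_pos _).le le_rfl (Real.exp_pos _).le
  refine ⟨Real.exp 1080, Real.exp 960, Real.exp 1080, Real.exp_pos _, Real.exp_pos _,
    Real.exp_pos _, x, ⟨hpos 0, hpos 1, hpos 2, fun n => ?_⟩, ⟨R, ?_⟩, ?_, hper⟩
  · rw [hx n]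
    simp
  · rintro _ ⟨n, rfl⟩
    exact hR n
  · intro h
    refine hper (fun _ => xbar (Real.exp 1080) (Real.exp 960) (Real.exp 1080)) 1 one_pos
      (fun _ => rfl) ?_
    have := h.sub_const (xbar (Real.exp 1080) (Real.exp 960) (Real.exp 1080))
    simpa using this

end Pool.Agent.Results.MP_f96ee4_an.Chaotic
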